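import Pool.Agent.Helper90.PI.Data

/-!
Kernel checks of the certificate, and the resulting real solution.
-/

set_option autoImplicit false

namespace Pool.Agent.Helper90.PI

open Data

/-- dot product of two lists -/
def dot : List ℤ → List ℤ → ℤ
  | a :: as, b :: bs => a * b + dot as bs
  | _, _ => 0

lemma dot_eq_sum (a b : List ℤ) (n : ℕ) (ha : a.length ≤ n) :
    dot a b = ∑ k : Fin n, a.getD k 0 * b.getD k 0 := by
  induction a generalizing b n with
  | nil =>
    cases b <;> simp [dot]
  | cons x a ih =>
    cases n with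
    | zero => simp at ha
    | succ n =>
      rw [Fin.sum_univ_succ]
      cases b with
      | nil => simp [dot]
      | cons y b =>
        simp only [dot]
        rw [ih b n (by simpa using ha)]
        simp

/-- sum of absolute values of `dot row col - D δ` over the columns -/
def rowErr (D : ℤ) (row : List ℤ) : ℕ → List (List ℤ) → ℕ → ℤ
  | i, col :: cols, l => |(if i = l then D else 0) - dot row col| + rowErr D row i cols (l + 1)
  | _, [], _ => 0

lemma rowErr_eq (D : ℤ) (row : List ℤ) (i : ℕ) (cols : List (List ℤ)) (l0 n : ℕ)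
    (hn : cols.length = n) :
    rowErr D row i cols l0 =
      ∑ l : Fin n, |(if i = l0 + l.1 then D else 0) - dot row (cols.getD l [])| := by
  induction cols generalizing l0 n with
  | nil => subst hn; simp [rowErr]
  | cons c cols ih =>
    cases n with
    | zero => simp at hn
    | succ n =>
      rw [Fin.sum_univ_succ]
      simp only [rowErr]
      rw [ih (l0 + 1) n (by simpa using hn)]
      simp only [Fin.val_zero, add_zero, List.getD_cons_zero, Fin.val_succ, List.getD_cons_succ]
      congr 1
      apply Finset.sum_congr rfl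
      intro l _
      rw [show l0 + 1 + l.1 = l0 + (l.1 + 1) by ring]

def absL (a : List ℤ) : List ℤ := a.map fun z => |z|

lemma absL_getD (a : List ℤ) (k : ℕ) : (absL a).getD k 0 = |a.getD k 0| := by
  unfold absL
  induction a generalizing k with
  | nil => simp
  | cons x a ih =>
    cases k with
    | zero => simp
    | succ k =>
      simp only [List.map_cons, List.getD_cons_succ]
      exact ih k

/-- the equations -/
def T (k : Fin 36) : Tm := TL.getD k []

def xsF (i : ℕ) : ℤ := xsL.getD i 0

def Af (i k : Fin 36) : ℤ := (AL.getD i []).getD k 0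

def Jf (k l : Fin 36) : ℤ := (JL.getD l []).getD k 0

/-- check of the derivative -/
def chkJ : Bool := decide (∀ k l : Fin 36, Jf k l = jent (T k) xsF l.1)

lemma chkJ_ok : chkJ = true := by decide +kernel

lemma hJ : ∀ k l : Fin 36, Jf k l = jent (T k) xsF l.1 := by
  have := chkJ_ok
  unfold chkJ at this
  exact of_decide_eq_true this

/-- shape of the data -/
lemma shape : (∀ i : Fin 36, (AL.getD i []).length = 36) ∧ JL.length = 36 := by
  decide +kernel

lemma chk1 : ∀ i : Fin 36, 4 * rowErr Dc (AL.getD i []) i.1 JL 0 ≤ Dc := by decide +kernel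

/-- list of norms -/
def nL : List ℤ := TL.map nrm

/-- list of values -/
def fL : List ℤ := TL.map fun t => qfZ t xsF

lemma chk2 : ∀ i : Fin 36, 8 * rc * dot (absL (AL.getD i [])) nL ≤ Dc := by decide +kernel

lemma chk3 : ∀ i : Fin 36, 2 * |dot (AL.getD i []) fL| ≤ rc * Dc := by decide +kernel

lemma h1 : ∀ i : Fin 36, 4 * ∑ l, |(if i = l then Dc else 0) - ∑ k, Af i k * Jf k l| ≤ Dc := by
  intro i
  refine le_trans (le_of_eq ?_) (chk1 i)
  rw [rowErr_eq Dc (AL.getD i []) i.1 JL 0 36 shape.2]
  congr 1
  apply Finset.sum_congr rfl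
  intro l _
  rw [dot_eq_sum _ _ 36 (shape.1 i).le, zero_add]
  simp only [Fin.ext_iff]
  rfl

lemma getD_map_nrm (L : List Tm) (k : ℕ) : (L.map nrm).getD k 0 = nrm (L.getD k []) := by
  induction L generalizing k with
  | nil => simp [nrm]
  | cons x L ih =>
    cases k with
    | zero => simp
    | succ k =>
      simp only [List.map_cons, List.getD_cons_succ]
      exact ih k

lemma getD_map_qfZ (L : List Tm) (x : ℕ → ℤ) (k : ℕ) :
    (L.map fun t => qfZ t x).getD k 0 = qfZ (L.getD k []) x := by
  induction L generalizing k with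
  | nil => simp [qfZ]
  | cons y L ih =>
    cases k with
    | zero => simp
    | succ k =>
      simp only [List.map_cons, List.getD_cons_succ]
      exact ih k

lemma h2 : ∀ i : Fin 36, 8 * rc * ∑ k, |Af i k| * nrm (T k) ≤ Dc := by
  intro i
  refine le_trans (le_of_eq ?_) (chk2 i)
  rw [dot_eq_sum _ _ 36 (by unfold absL; rw [List.length_map]; exact (shape.1 i).le)]
  congr 1
  apply Finset.sum_congr rfl
  intro k _
  rw [absL_getD]
  unfold nL
  rw [getD_map_nrm]
  rfl

lemma h3 : ∀ i : Fin 36, 2 * |∑ k, Af i k * qfZ (T k) xsF| ≤ rc * Dc := by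
  intro i
  refine le_trans (le_of_eq ?_) (chk3 i)
  rw [dot_eq_sum _ _ 36 (shape.1 i).le]
  have : ∀ k : Fin 36, fL.getD k.1 0 = qfZ (T k) xsF := fun k => getD_map_qfZ TL xsF k.1
  simp only [this]
  rfl

lemma Dc_pos : 0 < Dc := by decide +kernel

lemma rc_pos : 0 < rc := by decide +kernel

theorem exists_solution : ∃ y : ℕ → ℝ, (∀ i, 36 ≤ i → y i = xsF i) ∧
    ∀ k : Fin 36, qf (T k) y = 0 :=
  krawczyk T xsF Af Jf Dc rc Dc_pos rc_pos hJ h1 h2 h3

end Pool.Agent.Helper90.PI
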