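import Mathlib

/-!
Permutation-invariant qubit codes: definitions, and a sufficient condition for error correction
in terms of the coefficients of the codewords in the Dicke basis.
-/

set_option autoImplicit false

open Matrix

namespace Pool.Agent.Helper90.PI

/-- The single-qubit Pauli matrices `I, X, Y, Z`. -/
def pauli : Fin 4 → Matrix (Fin 2) (Fin 2) ℂ :=
  ![!![1, 0; 0, 1], !![0, 1; 1, 0], !![0, -Complex.I; Complex.I, 0], !![1, 0; 0, -1]]

/-- The tensor product of the single-qubit matrices `m i`, as a matrix indexed by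
computational basis labels. -/
def tensorOp {n : ℕ} (m : Fin n → Matrix (Fin 2) (Fin 2) ℂ) :
    Matrix (Fin n → Fin 2) (Fin n → Fin 2) ℂ :=
  fun x y => ∏ i, m i (x i) (y i)

/-- The `n`-qubit Pauli operator with label `P`. -/
def pauliOp {n : ℕ} (P : Fin n → Fin 4) : Matrix (Fin n → Fin 2) (Fin n → Fin 2) ℂ :=
  tensorOp fun i => pauli (P i)

/-- The weight of a Pauli operator: the number of tensor factors that are not the identity. -/
def pauliWeight {n : ℕ} (P : Fin n → Fin 4) : ℕ := (Finset.univ.filter fun i => P i ≠ 0).card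

/-- The number of ones of a computational basis label. -/
def wt {n : ℕ} (x : Fin n → Fin 2) : ℕ := (Finset.univ.filter fun i => x i = 1).card

/-- The Dicke state `|D^n_j⟩`. -/
noncomputable def dicke (n j : ℕ) : (Fin n → Fin 2) → ℂ :=
  fun x => if wt x = j then (((Real.sqrt (n.choose j))⁻¹ : ℝ) : ℂ) else 0

/-- The vector with coefficients `α` in the Dicke basis. -/
noncomputable def dickeVec {n : ℕ} (α : Fin (n + 1) → ℂ) : (Fin n → Fin 2) → ℂ :=
  ∑ j, α j • dicke n j

/-- The two codewords are orthonormal, and the Knill-Laflamme conditions hold for all pairs of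
Pauli operators of weight at most `t`. -/
def CorrectsErrors (n t : ℕ) (c : Fin 2 → (Fin n → Fin 2) → ℂ) : Prop :=
  (∀ i k : Fin 2, star (c i) ⬝ᵥ c k = if i = k then 1 else 0) ∧
  ∀ E F : Fin n → Fin 4, pauliWeight E ≤ t → pauliWeight F ≤ t →
    ∃ lam : ℂ, ∀ i k : Fin 2,
      star (c i) ⬝ᵥ (((pauliOp E)ᴴ * pauliOp F) *ᵥ c k) = if i = k then lam else 0

/-- There is a permutation-invariant qubit code of block length `n` (encoding one logical qubit)
that corrects `t` errors. -/
def HasPICode (n t : ℕ) : Prop :=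
  ∃ α β : Fin (n + 1) → ℂ, CorrectsErrors n t ![dickeVec α, dickeVec β]

/-! ### Sums over binary strings -/

lemma sum_fun_fin2 {ι : Type*} [Fintype ι] [DecidableEq ι] (h : ℕ → ℂ) :
    ∑ z : ι → Fin 2, h ((Finset.univ.filter fun i => z i = 1).card) =
      ∑ k ∈ Finset.range (Fintype.card ι + 1), ((Fintype.card ι).choose k : ℂ) * h k := by
  have h1 : ∑ z : ι → Fin 2, h ((Finset.univ.filter fun i => z i = 1).card) =
      ∑ s : Finset ι, h s.card := by
    refine Finset.sum_bij' (fun z _ => Finset.univ.filter fun i => z i = 1)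
      (fun s _ => fun i => if i ∈ s then 1 else 0) ?_ ?_ ?_ ?_ ?_
    · intro z _; exact Finset.mem_univ _
    · intro s _; exact Finset.mem_univ _
    · intro z _
      funext i
      by_cases hz : z i = 1
      · simp [hz]
      · have : z i = 0 := by
          have := (z i).isLt
          omega
        simp [this]
    · intro s _
      ext i
      simp
    · intro z _; rfl
  rw [h1, ← Finset.powerset_univ, Finset.sum_powerset_apply_card]
  simp [Finset.card_univ]

lemma tensorOp_mul {n : ℕ} (m m' : Fin n → Matrix (Fin 2) (Fin 2) ℂ) :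
    tensorOp m * tensorOp m' = tensorOp fun i => m i * m' i := by
  ext x y
  simp only [Matrix.mul_apply, tensorOp]
  rw [Finset.prod_univ_sum, Fintype.piFinset_univ]
  apply Finset.sum_congr rfl
  intro z _
  rw [Finset.prod_mul_distrib]

lemma tensorOp_conjTranspose {n : ℕ} (m : Fin n → Matrix (Fin 2) (Fin 2) ℂ) :
    (tensorOp m)ᴴ = tensorOp fun i => (m i)ᴴ := by
  ext x y
  simp [tensorOp, Matrix.conjTranspose_apply, star_prod]

lemma sum_univ_inst {α β : Type*} [AddCommMonoid β] (i1 i2 : Fintype α) (f : α → β) :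
    @Finset.sum _ _ _ (@Finset.univ _ i1) f = @Finset.sum _ _ _ (@Finset.univ _ i2) f := by
  rw [Subsingleton.elim i1 i2]

lemma prod_univ_inst {α β : Type*} [CommMonoid β] (i1 i2 : Fintype α) (f : α → β) :
    @Finset.prod _ _ _ (@Finset.univ _ i1) f = @Finset.prod _ _ _ (@Finset.univ _ i2) f := by
  rw [Subsingleton.elim i1 i2]

/-- Core computation: matrix elements of a tensor operator supported on few qubits between
functions of the weight. -/
lemma sum_tensorOp {n s : ℕ} (hs : s ≤ n) (m : Fin n → Matrix (Fin 2) (Fin 2) ℂ)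
    (U : Finset (Fin n)) (hU : U.card ≤ s) (hm : ∀ i, i ∉ U → m i = 1)
    (F : ℕ → ℕ → ℂ)
    (hF : ∀ p q, p ≤ s → q ≤ s →
      ∑ k ∈ Finset.range (n - s + 1), ((n - s).choose k : ℂ) * F (p + k) (q + k) = 0) :
    ∑ x : Fin n → Fin 2, ∑ y : Fin n → Fin 2, tensorOp m x y * F (wt x) (wt y) = 0 := by
  classical
  obtain ⟨S, hUS, -, hScard⟩ := Finset.exists_subsuperset_card_eq (Finset.subset_univ U) hU
    (by simpa using hs)
  let e := Equiv.piEquivPiSubtypeProd (fun i => i ∈ S) (fun _ : Fin n => Fin 2)
  -- weight splits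
  have hwt : ∀ (u : {i // i ∈ S} → Fin 2) (z : {i // i ∉ S} → Fin 2),
      wt (e.symm (u, z)) = (Finset.univ.filter fun i => u i = 1).card +
        (Finset.univ.filter fun i => z i = 1).card := by
    intro u z
    unfold wt
    simp only [Finset.card_filter]
    rw [← Fintype.sum_subtype_add_sum_subtype (fun i => i ∈ S)]
    congr 1
    · have h1 : ∀ i : {i // i ∈ S}, e.symm (u, z) i.1 = u i := by
        intro i; simp [e, Equiv.piEquivPiSubtypeProd, i.2]
      simp only [h1]
      exact sum_univ_inst _ _ _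
    · have h1 : ∀ i : {i // i ∉ S}, e.symm (u, z) i.1 = z i := by
        intro i; simp [e, Equiv.piEquivPiSubtypeProd, i.2]
      simp only [h1]
  have hprod : ∀ (u v : {i // i ∈ S} → Fin 2) (z w : {i // i ∉ S} → Fin 2),
      tensorOp m (e.symm (u, z)) (e.symm (v, w)) =
        (∏ i, m i.1 (u i) (v i)) * (if z = w then 1 else 0) := by
    intro u v z w
    unfold tensorOp
    rw [← Fintype.prod_subtype_mul_prod_subtype (fun i => i ∈ S)]
    congr 1
    · have h1 : ∀ (u : {i // i ∈ S} → Fin 2) (z : {i // i ∉ S} → Fin 2) (i : {i // i ∈ S}),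
          e.symm (u, z) i.1 = u i := by
        intro u z i; simp [e, Equiv.piEquivPiSubtypeProd, i.2]
      simp only [h1]
      exact prod_univ_inst _ _ _
    · have h1 : ∀ i : {i // i ∉ S}, m i.1 (e.symm (u, z) i.1) (e.symm (v, w) i.1) =
          if z i = w i then 1 else 0 := by
        intro i
        rw [hm i.1 (fun h => i.2 (hUS h))]
        simp [e, Equiv.piEquivPiSubtypeProd, i.2, Matrix.one_apply]
      rw [Finset.prod_congr rfl (fun i _ => h1 i)]
      rw [Finset.prod_ite_zero]
      simp [funext_iff]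
  have hcard : Fintype.card {i // i ∉ S} = n - s := by
    rw [Fintype.card_subtype_compl]; simp [hScard]
  have key : ∀ (u v : {i // i ∈ S} → Fin 2),
      ∑ z : {i // i ∉ S} → Fin 2, F (wt (e.symm (u, z))) (wt (e.symm (v, z))) = 0 := by
    intro u v
    simp_rw [hwt]
    have h2 := sum_fun_fin2 (ι := {i // i ∉ S}) (fun k =>
      F ((Finset.univ.filter fun i => u i = 1).card + k)
        ((Finset.univ.filter fun i => v i = 1).card + k))
    rw [h2, hcard]
    apply hF
    · refine le_trans (Finset.card_filter_le _ _) ?_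
      simp [hScard]
    · refine le_trans (Finset.card_filter_le _ _) ?_
      simp [hScard]
  rw [← e.symm.sum_comp]
  simp_rw [← e.symm.sum_comp (fun y => tensorOp m (e.symm _) y * F (wt (e.symm _)) (wt y))]
  rw [Fintype.sum_prod_type]
  simp_rw [Fintype.sum_prod_type, hprod]
  apply Finset.sum_eq_zero
  intro u _
  rw [Finset.sum_comm]
  apply Finset.sum_eq_zero
  intro v _
  have h3 : ∀ z : {i // i ∉ S} → Fin 2, ∑ w : {i // i ∉ S} → Fin 2,
      (∏ i, m i.1 (u i) (v i)) * (if z = w then 1 else 0) *
        F (wt (e.symm (u, z))) (wt (e.symm (v, w))) =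
      (∏ i, m i.1 (u i) (v i)) * F (wt (e.symm (u, z))) (wt (e.symm (v, z))) := by
    intro z
    rw [Finset.sum_eq_single z]
    · simp
    · intro w _ hw
      simp [Ne.symm hw]
    · intro h; exact absurd (Finset.mem_univ _) h
  rw [Finset.sum_congr rfl (fun z _ => h3 z), ← Finset.mul_sum, key, mul_zero]

end Pool.Agent.Helper90.PI
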