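import Pool.Agent.Helper90.PI.KL

/-!
Block length `59`, `t = 4`: codes with `|c₁⟩` the time reversal of `|c₀⟩` and `|c₀⟩` supported on
weights divisible by `3`. Twenty complex equations suffice.
-/

set_option autoImplicit false

namespace Pool.Agent.Helper90.PI

/-- coefficients of the second codeword -/
noncomputable def bb (a : ℕ → ℂ) (m : ℕ) : ℂ := (-1) ^ m * star (a (59 - m))

noncomputable def XX (a : ℕ → ℂ) (p q : ℕ) : ℂ :=
  ∑ k ∈ Finset.range 52, ((51).choose k : ℂ) * (star (a (p + k)) * bb a (q + k))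

noncomputable def AA (a : ℕ → ℂ) (p q : ℕ) : ℂ :=
  ∑ k ∈ Finset.range 52, ((51).choose k : ℂ) * (star (a (p + k)) * a (q + k))

noncomputable def DD (a : ℕ → ℂ) (p q : ℕ) : ℂ :=
  ∑ k ∈ Finset.range 52, ((51).choose k : ℂ) *
    (star (a (p + k)) * a (q + k) - star (bb a (p + k)) * bb a (q + k))

lemma sgn_congr {m n : ℕ} (h : m % 2 = n % 2) : (-1 : ℂ) ^ m = (-1) ^ n := by
  rw [neg_one_pow_eq_pow_mod_two, h, ← neg_one_pow_eq_pow_mod_two]

lemma XX_symm (a : ℕ → ℂ) (p q : ℕ) (hp : p ≤ 8) (hq : q ≤ 8) :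
    XX a p q = (-1) ^ (p + q + 1) * XX a (8 - q) (8 - p) := by
  unfold XX
  rw [← Finset.sum_range_reflect, Finset.mul_sum]
  apply Finset.sum_congr rfl
  intro k hk
  have hk' : k ≤ 51 := by have := Finset.mem_range.mp hk; omega
  have h0 : 52 - 1 - k = 51 - k := by omega
  rw [h0, Nat.choose_symm hk']
  unfold bb
  have h1 : 59 - (q + (51 - k)) = 8 - q + k := by omega
  have h2 : 59 - (8 - p + k) = p + (51 - k) := by omega
  rw [h1, h2]
  have h3 : (-1 : ℂ) ^ (q + (51 - k)) = (-1) ^ (p + q + 1) * (-1) ^ (8 - p + k) := by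
    rw [← pow_add]
    apply sgn_congr
    omega
  rw [h3]
  ring

lemma DD_eq (a : ℕ → ℂ) (p q : ℕ) (hp : p ≤ 8) (hq : q ≤ 8) :
    DD a p q = AA a p q - (-1) ^ (p + q) * AA a (8 - q) (8 - p) := by
  unfold DD AA
  simp_rw [mul_sub]
  rw [Finset.sum_sub_distrib]
  congr 1
  rw [← Finset.sum_range_reflect, Finset.mul_sum]
  apply Finset.sum_congr rfl
  intro k hk
  have hk' : k ≤ 51 := by have := Finset.mem_range.mp hk; omega
  have h0 : 52 - 1 - k = 51 - k := by omega
  rw [h0, Nat.choose_symm hk']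
  unfold bb
  have h1 : 59 - (q + (51 - k)) = 8 - q + k := by omega
  have h2 : 59 - (p + (51 - k)) = 8 - p + k := by omega
  rw [h1, h2]
  simp only [star_mul', star_star, star_pow, star_neg, star_one]
  have h3 : (-1 : ℂ) ^ (p + (51 - k)) * (-1 : ℂ) ^ (q + (51 - k)) = (-1) ^ (p + q) := by
    rw [← pow_add]
    apply sgn_congr
    omega
  rw [← h3]
  ring

lemma DD_symm (a : ℕ → ℂ) (p q : ℕ) (hp : p ≤ 8) (hq : q ≤ 8) :
    DD a (8 - q) (8 - p) = -((-1) ^ (p + q) * DD a p q) := by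
  rw [DD_eq a p q hp hq, DD_eq a (8 - q) (8 - p) (by omega) (by omega)]
  have h1 : 8 - (8 - p) = p := by omega
  have h2 : 8 - (8 - q) = q := by omega
  rw [h1, h2]
  have h3 : (-1 : ℂ) ^ (8 - q + (8 - p)) = (-1) ^ (p + q) := by
    apply sgn_congr
    omega
  rw [h3]
  have h4 : (-1 : ℂ) ^ (p + q) * (-1) ^ (p + q) = 1 := by
    rw [← pow_add]
    rw [sgn_congr (n := 0) (by omega)]
    simp
  calc AA a (8 - q) (8 - p) - (-1) ^ (p + q) * AA a p q
      = ((-1 : ℂ) ^ (p + q) * (-1) ^ (p + q)) * AA a (8 - q) (8 - p) -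
          (-1) ^ (p + q) * AA a p q := by rw [h4, one_mul]
    _ = _ := by ring

lemma DD_conj (a : ℕ → ℂ) (p q : ℕ) : DD a q p = star (DD a p q) := by
  unfold DD
  rw [star_sum]
  apply Finset.sum_congr rfl
  intro k _
  simp only [star_mul', star_sub, star_star, star_natCast]
  ring

section support

variable (a : ℕ → ℂ) (ha : ∀ j, ¬ (3 ∣ j) → a j = 0)

include ha

lemma XX_support (p q : ℕ) (_ : p ≤ 8) (hq : q ≤ 8) (h : q % 3 ≠ (p + 2) % 3) :
    XX a p q = 0 := by
  unfold XX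
  apply Finset.sum_eq_zero
  intro k hk
  have hk' : k ≤ 51 := by have := Finset.mem_range.mp hk; omega
  by_cases h1 : 3 ∣ p + k
  · have h2 : ¬ (3 ∣ 59 - (q + k)) := by omega
    unfold bb
    rw [ha _ h2]; simp
  · rw [ha _ h1]; simp

lemma DD_support (p q : ℕ) (hp : p ≤ 8) (hq : q ≤ 8) (h : q % 3 ≠ p % 3) :
    DD a p q = 0 := by
  unfold DD
  apply Finset.sum_eq_zero
  intro k hk
  have hk' : k ≤ 51 := by have := Finset.mem_range.mp hk; omega
  have h1 : star (a (p + k)) * a (q + k) = 0 := by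
    by_cases h1 : 3 ∣ p + k
    · have h2 : ¬ (3 ∣ q + k) := by omega
      rw [ha _ h2]; simp
    · rw [ha _ h1]; simp
  have h2 : star (bb a (p + k)) * bb a (q + k) = 0 := by
    unfold bb
    by_cases h1 : 3 ∣ 59 - (p + k)
    · have h2 : ¬ (3 ∣ 59 - (q + k)) := by omega
      rw [ha _ h2]; simp
    · rw [ha _ h1]; simp
  rw [h1, h2]; simp

end support

/-- The twenty equations. -/
def Good (a : ℕ → ℂ) : Prop :=
  DD a 0 0 = 0 ∧ DD a 1 1 = 0 ∧ DD a 2 2 = 0 ∧ DD a 3 3 = 0 ∧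
  DD a 0 3 = 0 ∧ DD a 1 4 = 0 ∧ DD a 2 5 = 0 ∧ DD a 0 6 = 0 ∧
  XX a 0 2 = 0 ∧ XX a 1 3 = 0 ∧ XX a 2 4 = 0 ∧ XX a 0 5 = 0 ∧ XX a 1 6 = 0 ∧
  XX a 1 0 = 0 ∧ XX a 2 1 = 0 ∧ XX a 3 2 = 0 ∧ XX a 4 3 = 0 ∧
  XX a 4 0 = 0 ∧ XX a 5 1 = 0 ∧ XX a 7 0 = 0

lemma XX_all (a : ℕ → ℂ) (ha : ∀ j, ¬ (3 ∣ j) → a j = 0) (hg : Good a) (p q : ℕ) (hp : p ≤ 8)
    (hq : q ≤ 8) : XX a p q = 0 := by
  obtain ⟨-, -, -, -, -, -, -, -, h02, h13, h24, h05, h16, h10, h21, h32, h43, h40, h51, h70⟩ := hg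
  by_cases hs : q % 3 ≠ (p + 2) % 3
  · exact XX_support a ha p q hp hq hs
  push Not at hs
  have hsym : ∀ p' q', p' ≤ 8 → q' ≤ 8 → XX a p' q' = 0 → XX a (8 - q') (8 - p') = 0 := by
    intro p' q' hp' hq' h0
    have h1 := XX_symm a (8 - q') (8 - p') (by omega) (by omega)
    have h2 : 8 - (8 - p') = p' := by omega
    have h3 : 8 - (8 - q') = q' := by omega
    rw [h2, h3, h0, mul_zero] at h1
    exact h1
  have hself : ∀ p' q', p' + q' = 8 → XX a p' q' = 0 := by
    intro p' q' h8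
    have h1 := XX_symm a p' q' (by omega) (by omega)
    have h2 : 8 - q' = p' := by omega
    have h3 : 8 - p' = q' := by omega
    rw [h2, h3, h8] at h1
    norm_num at h1
    have h4 : XX a p' q' + XX a p' q' = 0 := by
      nth_rw 1 [h1]; ring
    have h5 : (2 : ℂ) * XX a p' q' = 0 := by rw [two_mul]; exact h4
    simpa using h5
  interval_cases p <;> interval_cases q <;>
    first
    | (exfalso; revert hs; decide)
    | assumption
    | exact hself _ _ rfl
    | exact hsym 0 2 (by norm_num) (by norm_num) h02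
    | exact hsym 1 3 (by norm_num) (by norm_num) h13
    | exact hsym 2 4 (by norm_num) (by norm_num) h24
    | exact hsym 0 5 (by norm_num) (by norm_num) h05
    | exact hsym 1 6 (by norm_num) (by norm_num) h16
    | exact hsym 1 0 (by norm_num) (by norm_num) h10
    | exact hsym 2 1 (by norm_num) (by norm_num) h21
    | exact hsym 3 2 (by norm_num) (by norm_num) h32
    | exact hsym 4 3 (by norm_num) (by norm_num) h43
    | exact hsym 4 0 (by norm_num) (by norm_num) h40
    | exact hsym 5 1 (by norm_num) (by norm_num) h51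
    | exact hsym 7 0 (by norm_num) (by norm_num) h70

lemma DD_all (a : ℕ → ℂ) (ha : ∀ j, ¬ (3 ∣ j) → a j = 0) (hg : Good a) (p q : ℕ) (hp : p ≤ 8)
    (hq : q ≤ 8) : DD a p q = 0 := by
  obtain ⟨h00, h11, h22, h33, h03, h14, h25, h06, -⟩ := hg
  by_cases hs : q % 3 ≠ p % 3
  · exact DD_support a ha p q hp hq hs
  push Not at hs
  have hsym : ∀ p' q', p' ≤ 8 → q' ≤ 8 → DD a p' q' = 0 → DD a (8 - q') (8 - p') = 0 := by
    intro p' q' hp' hq' h0
    rw [DD_symm a p' q' hp' hq', h0]; simp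
  have hconj : ∀ p' q', DD a p' q' = 0 → DD a q' p' = 0 := by
    intro p' q' h0
    rw [DD_conj, h0]; simp
  have hself : ∀ p' q', p' + q' = 8 → DD a p' q' = 0 := by
    intro p' q' h8
    have h1 := DD_symm a p' q' (by omega) (by omega)
    have h2 : 8 - q' = p' := by omega
    have h3 : 8 - p' = q' := by omega
    rw [h2, h3, h8] at h1
    norm_num at h1
    have h4 : DD a p' q' + DD a p' q' = 0 := by
      nth_rw 1 [h1]; ring
    have h5 : (2 : ℂ) * DD a p' q' = 0 := by rw [two_mul]; exact h4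
    simpa using h5
  interval_cases p <;> interval_cases q <;>
    first
    | (exfalso; revert hs; decide)
    | assumption
    | exact hself _ _ rfl
    | exact hsym 0 0 (by norm_num) (by norm_num) h00
    | exact hsym 1 1 (by norm_num) (by norm_num) h11
    | exact hsym 2 2 (by norm_num) (by norm_num) h22
    | exact hsym 3 3 (by norm_num) (by norm_num) h33
    | exact hsym 0 3 (by norm_num) (by norm_num) h03
    | exact hsym 1 4 (by norm_num) (by norm_num) h14
    | exact hsym 2 5 (by norm_num) (by norm_num) h25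
    | exact hsym 0 6 (by norm_num) (by norm_num) h06
    | exact hconj _ _ h03
    | exact hconj _ _ h14
    | exact hconj _ _ h25
    | exact hconj _ _ h06
    | exact hconj _ _ (hsym 0 3 (by norm_num) (by norm_num) h03)
    | exact hconj _ _ (hsym 1 4 (by norm_num) (by norm_num) h14)
    | exact hconj _ _ (hsym 2 5 (by norm_num) (by norm_num) h25)
    | exact hconj _ _ (hsym 0 6 (by norm_num) (by norm_num) h06)

theorem hasPICode_59_4_of (a : ℕ → ℂ) (ha : ∀ j, ¬ (3 ∣ j) → a j = 0) (hg : Good a)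
    (hne : ∃ j, j ≤ 59 ∧ a j ≠ 0) : HasPICode 59 4 := by
  apply hasPICode_of (n := 59) (t := 4) (by norm_num) a (bb a) _ _ hne
  · intro p q hp hq
    exact XX_all a ha hg p q (by omega) (by omega)
  · intro p q hp hq
    exact DD_all a ha hg p q (by omega) (by omega)

end Pool.Agent.Helper90.PI
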