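import Pool.Agent.Helper90.PI.Check
import Pool.Agent.Helper90.PI.Red

/-!
From the real solution to the code of block length `59`.
-/

set_option autoImplicit false

namespace Pool.Agent.Helper90.PI

open Data

def ee (l : ℕ) : ℕ := eT.getD l 0

def Ri (l : ℕ) : ℕ := rho.getD (2 * l) 0

def Ii (l : ℕ) : ℕ := rho.getD (2 * l + 1) 0

def coef (k l l' : ℕ) (s : ℤ) : ℤ := s * cTab.getD k 0 * 2 ^ (56 - (ee l + ee l'))

/-- terms of the real and imaginary parts of `s * AA p q` -/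
def tA (im : Bool) (s : ℤ) (p q : ℕ) : Tm :=
  (List.range 52).flatMap fun k =>
    if (p + k) % 3 = 0 ∧ p + k ≤ 57 ∧ (q + k) % 3 = 0 ∧ q + k ≤ 57 then
      (if im then
        [(Ri ((p + k) / 3), Ii ((q + k) / 3), coef k ((p + k) / 3) ((q + k) / 3) s),
         (Ii ((p + k) / 3), Ri ((q + k) / 3), -coef k ((p + k) / 3) ((q + k) / 3) s)]
      else
        [(Ri ((p + k) / 3), Ri ((q + k) / 3), coef k ((p + k) / 3) ((q + k) / 3) s),
         (Ii ((p + k) / 3), Ii ((q + k) / 3), coef k ((p + k) / 3) ((q + k) / 3) s)])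
    else []

/-- terms of the real and imaginary parts of `XX p q` -/
def tX (im : Bool) (p q : ℕ) : Tm :=
  (List.range 52).flatMap fun k =>
    if (p + k) % 3 = 0 ∧ p + k ≤ 57 ∧ (59 - (q + k)) % 3 = 0 ∧ 59 - (q + k) ≤ 57 then
      (if im then
        [(Ri ((p + k) / 3), Ii ((59 - (q + k)) / 3),
            -coef k ((p + k) / 3) ((59 - (q + k)) / 3) ((-1) ^ (q + k))),
         (Ii ((p + k) / 3), Ri ((59 - (q + k)) / 3),
            -coef k ((p + k) / 3) ((59 - (q + k)) / 3) ((-1) ^ (q + k)))]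
      else
        [(Ri ((p + k) / 3), Ri ((59 - (q + k)) / 3),
            coef k ((p + k) / 3) ((59 - (q + k)) / 3) ((-1) ^ (q + k))),
         (Ii ((p + k) / 3), Ii ((59 - (q + k)) / 3),
            -coef k ((p + k) / 3) ((59 - (q + k)) / 3) ((-1) ^ (q + k)))])
    else []

def tD (im : Bool) (p q : ℕ) : Tm :=
  tA im 1 p q ++ tA im (-(-1) ^ (p + q)) (8 - q) (8 - p)

def genTL : List Tm :=
  [tD false 0 0, tD false 1 1, tD false 2 2, tD false 3 3,
   tD false 0 3, tD true 0 3, tD false 1 4, tD true 1 4, tD false 2 5, tD true 2 5,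
   tD false 0 6, tD true 0 6,
   tX false 0 2, tX true 0 2, tX false 1 3, tX true 1 3, tX false 2 4, tX true 2 4,
   tX false 0 5, tX true 0 5, tX false 1 6, tX true 1 6, tX false 1 0, tX true 1 0,
   tX false 2 1, tX true 2 1, tX false 3 2, tX true 3 2, tX false 4 3, tX true 4 3,
   tX false 4 0, tX true 4 0, tX false 5 1, tX true 5 1, tX false 7 0, tX true 7 0]

lemma genTL_eq : TL = genTL := by decide +kernel

lemma cTab_eq (k : ℕ) (hk : k < 52) : cTab.getD k 0 = ((51).choose k : ℤ) := by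
  have h : ∀ k : Fin 52, cTab.getD k.1 0 =
      (((51).descFactorial k.1 / (k.1).factorial : ℕ) : ℤ) := by decide +kernel
  rw [Nat.choose_eq_descFactorial_div_factorial]
  exact h ⟨k, hk⟩

lemma ee_le (l : ℕ) : ee l ≤ 28 := by
  have h : ∀ l : Fin 20, ee l.1 ≤ 28 := by decide +kernel
  by_cases hl : l < 20
  · exact h ⟨l, hl⟩
  · have h2 : eT.length ≤ l := by
      have : eT.length = 20 := by decide
      omega
    unfold ee
    rw [List.getD_eq_default _ _ h2]
    norm_num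

/-- the amplitudes built from a real vector -/
noncomputable def amp (y : ℕ → ℝ) (j : ℕ) : ℂ :=
  if j % 3 = 0 ∧ j ≤ 57 then
    (⟨y (Ri (j / 3)) / 2 ^ ee (j / 3), y (Ii (j / 3)) / 2 ^ ee (j / 3)⟩ : ℂ) else 0

lemma qf_append (A B : Tm) (y : ℕ → ℝ) : qf (A ++ B) y = qf A y + qf B y := by
  unfold qf
  rw [List.map_append, List.sum_append]

lemma qf_flatMap (f : ℕ → Tm) (n : ℕ) (y : ℕ → ℝ) :
    qf ((List.range n).flatMap f) y = ∑ k ∈ Finset.range n, qf (f k) y := by
  induction n with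
  | zero => simp [qf]
  | succ n ih =>
    rw [List.range_succ, List.flatMap_append, qf_append, ih, Finset.sum_range_succ]
    simp

lemma coef_real (k l l' : ℕ) (s : ℤ) (hk : k < 52) :
    (coef k l l' s : ℝ) = 2 ^ 56 * ((s : ℝ) * ((51).choose k : ℝ)) * (1 / 2 ^ ee l) * (1 / 2 ^ ee l') := by
  unfold coef
  rw [cTab_eq k hk]
  have h1 := ee_le l
  have h2 := ee_le l'
  have h3 : (2 : ℝ) ^ 56 = 2 ^ (56 - (ee l + ee l')) * (2 ^ ee l * 2 ^ ee l') := by
    rw [← pow_add, ← pow_add]; congr 1; omega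
  rw [h3]
  push_cast
  field_simp

lemma AA_parts (y : ℕ → ℝ) (s : ℤ) (p q : ℕ) :
    (2 : ℝ) ^ 56 * ((s : ℂ) * AA (amp y) p q).re = qf (tA false s p q) y ∧
    (2 : ℝ) ^ 56 * ((s : ℂ) * AA (amp y) p q).im = qf (tA true s p q) y := by
  have hterm : ∀ k, k < 52 →
      (2 : ℝ) ^ 56 * ((s : ℂ) * (((51).choose k : ℂ) * (star (amp y (p + k)) * amp y (q + k)))).re =
      qf (if (p + k) % 3 = 0 ∧ p + k ≤ 57 ∧ (q + k) % 3 = 0 ∧ q + k ≤ 57 then
        [(Ri ((p + k) / 3), Ri ((q + k) / 3), coef k ((p + k) / 3) ((q + k) / 3) s),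
         (Ii ((p + k) / 3), Ii ((q + k) / 3), coef k ((p + k) / 3) ((q + k) / 3) s)] else []) y ∧
      (2 : ℝ) ^ 56 * ((s : ℂ) * (((51).choose k : ℂ) * (star (amp y (p + k)) * amp y (q + k)))).im =
      qf (if (p + k) % 3 = 0 ∧ p + k ≤ 57 ∧ (q + k) % 3 = 0 ∧ q + k ≤ 57 then
        [(Ri ((p + k) / 3), Ii ((q + k) / 3), coef k ((p + k) / 3) ((q + k) / 3) s),
         (Ii ((p + k) / 3), Ri ((q + k) / 3), -coef k ((p + k) / 3) ((q + k) / 3) s)] else []) y := by
    intro k hk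
    by_cases hc : (p + k) % 3 = 0 ∧ p + k ≤ 57 ∧ (q + k) % 3 = 0 ∧ q + k ≤ 57
    · rw [if_pos hc, if_pos hc]
      have a1 : amp y (p + k) = (⟨y (Ri ((p + k) / 3)) / 2 ^ ee ((p + k) / 3),
          y (Ii ((p + k) / 3)) / 2 ^ ee ((p + k) / 3)⟩ : ℂ) := by
        unfold amp; rw [if_pos ⟨hc.1, hc.2.1⟩]
      have a2 : amp y (q + k) = (⟨y (Ri ((q + k) / 3)) / 2 ^ ee ((q + k) / 3),
          y (Ii ((q + k) / 3)) / 2 ^ ee ((q + k) / 3)⟩ : ℂ) := by
        unfold amp; rw [if_pos ⟨hc.2.2.1, hc.2.2.2⟩]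
      rw [a1, a2]
      simp only [qf, List.map_cons, List.map_nil, List.sum_cons, List.sum_nil, Int.cast_neg]
      rw [coef_real _ _ _ _ hk]
      constructor
      · simp [Complex.mul_re, Complex.mul_im]
        ring
      · simp [Complex.mul_re, Complex.mul_im]
        ring
    · rw [if_neg hc, if_neg hc]
      have h0 : star (amp y (p + k)) * amp y (q + k) = 0 := by
        by_cases h1 : (p + k) % 3 = 0 ∧ p + k ≤ 57
        · have h2 : ¬ ((q + k) % 3 = 0 ∧ q + k ≤ 57) := fun h => hc ⟨h1.1, h1.2, h.1, h.2⟩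
          have : amp y (q + k) = 0 := by unfold amp; rw [if_neg h2]
          rw [this, mul_zero]
        · have : amp y (p + k) = 0 := by unfold amp; rw [if_neg h1]
          rw [this]; simp
      rw [h0]
      simp [qf]
  unfold AA tA
  rw [qf_flatMap, qf_flatMap, Finset.mul_sum, Complex.re_sum, Complex.im_sum, Finset.mul_sum,
    Finset.mul_sum]
  constructor
  · apply Finset.sum_congr rfl
    intro k hk
    simpa using (hterm k (Finset.mem_range.mp hk)).1
  · apply Finset.sum_congr rfl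
    intro k hk
    simpa using (hterm k (Finset.mem_range.mp hk)).2

lemma XX_parts (y : ℕ → ℝ) (p q : ℕ) :
    (2 : ℝ) ^ 56 * (XX (amp y) p q).re = qf (tX false p q) y ∧
    (2 : ℝ) ^ 56 * (XX (amp y) p q).im = qf (tX true p q) y := by
  have hterm : ∀ k, k < 52 →
      (2 : ℝ) ^ 56 * (((51).choose k : ℂ) * (star (amp y (p + k)) * bb (amp y) (q + k))).re =
      qf (if (p + k) % 3 = 0 ∧ p + k ≤ 57 ∧ (59 - (q + k)) % 3 = 0 ∧ 59 - (q + k) ≤ 57 then
        [(Ri ((p + k) / 3), Ri ((59 - (q + k)) / 3),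
            coef k ((p + k) / 3) ((59 - (q + k)) / 3) ((-1) ^ (q + k))),
         (Ii ((p + k) / 3), Ii ((59 - (q + k)) / 3),
            -coef k ((p + k) / 3) ((59 - (q + k)) / 3) ((-1) ^ (q + k)))] else []) y ∧
      (2 : ℝ) ^ 56 * (((51).choose k : ℂ) * (star (amp y (p + k)) * bb (amp y) (q + k))).im =
      qf (if (p + k) % 3 = 0 ∧ p + k ≤ 57 ∧ (59 - (q + k)) % 3 = 0 ∧ 59 - (q + k) ≤ 57 then
        [(Ri ((p + k) / 3), Ii ((59 - (q + k)) / 3),
            -coef k ((p + k) / 3) ((59 - (q + k)) / 3) ((-1) ^ (q + k))),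
         (Ii ((p + k) / 3), Ri ((59 - (q + k)) / 3),
            -coef k ((p + k) / 3) ((59 - (q + k)) / 3) ((-1) ^ (q + k)))] else []) y := by
    intro k hk
    by_cases hc : (p + k) % 3 = 0 ∧ p + k ≤ 57 ∧ (59 - (q + k)) % 3 = 0 ∧ 59 - (q + k) ≤ 57
    · rw [if_pos hc, if_pos hc]
      have a1 : amp y (p + k) = (⟨y (Ri ((p + k) / 3)) / 2 ^ ee ((p + k) / 3),
          y (Ii ((p + k) / 3)) / 2 ^ ee ((p + k) / 3)⟩ : ℂ) := by
        unfold amp; rw [if_pos ⟨hc.1, hc.2.1⟩]
      have a2 : amp y (59 - (q + k)) = (⟨y (Ri ((59 - (q + k)) / 3)) / 2 ^ ee ((59 - (q + k)) / 3),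
          y (Ii ((59 - (q + k)) / 3)) / 2 ^ ee ((59 - (q + k)) / 3)⟩ : ℂ) := by
        unfold amp; rw [if_pos ⟨hc.2.2.1, hc.2.2.2⟩]
      unfold bb
      rw [a1, a2]
      simp only [qf, List.map_cons, List.map_nil, List.sum_cons, List.sum_nil, Int.cast_neg]
      rw [coef_real _ _ _ _ hk]
      rcases neg_one_pow_eq_or ℂ (q + k) with h | h
      · have h' : (-1 : ℤ) ^ (q + k) = 1 := by exact_mod_cast h
        rw [h, h']
        constructor
        · simp [Complex.mul_re, Complex.mul_im]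
          ring
        · simp [Complex.mul_re, Complex.mul_im]
          ring
      · have h' : (-1 : ℤ) ^ (q + k) = -1 := by exact_mod_cast h
        rw [h, h']
        constructor
        · simp [Complex.mul_re, Complex.mul_im]
          ring
        · simp [Complex.mul_re, Complex.mul_im]
          ring
    · rw [if_neg hc, if_neg hc]
      have h0 : star (amp y (p + k)) * bb (amp y) (q + k) = 0 := by
        unfold bb
        by_cases h1 : (p + k) % 3 = 0 ∧ p + k ≤ 57
        · have h2 : ¬ ((59 - (q + k)) % 3 = 0 ∧ 59 - (q + k) ≤ 57) :=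
            fun h => hc ⟨h1.1, h1.2, h.1, h.2⟩
          have : amp y (59 - (q + k)) = 0 := by unfold amp; rw [if_neg h2]
          rw [this]; simp
        · have : amp y (p + k) = 0 := by unfold amp; rw [if_neg h1]
          rw [this]; simp
      rw [h0]
      simp [qf]
  unfold XX tX
  rw [qf_flatMap, qf_flatMap, Complex.re_sum, Complex.im_sum, Finset.mul_sum, Finset.mul_sum]
  constructor
  · apply Finset.sum_congr rfl
    intro k hk
    simpa using (hterm k (Finset.mem_range.mp hk)).1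
  · apply Finset.sum_congr rfl
    intro k hk
    simpa using (hterm k (Finset.mem_range.mp hk)).2

lemma DD_parts (y : ℕ → ℝ) (p q : ℕ) (hp : p ≤ 8) (hq : q ≤ 8) :
    (2 : ℝ) ^ 56 * (DD (amp y) p q).re = qf (tD false p q) y ∧
    (2 : ℝ) ^ 56 * (DD (amp y) p q).im = qf (tD true p q) y := by
  have h1 := AA_parts y 1 p q
  have h2 := AA_parts y (-(-1) ^ (p + q)) (8 - q) (8 - p)
  have h3 : DD (amp y) p q = ((1 : ℤ) : ℂ) * AA (amp y) p q +
      ((-(-1) ^ (p + q) : ℤ) : ℂ) * AA (amp y) (8 - q) (8 - p) := by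
    rw [DD_eq _ p q hp hq]
    push_cast
    ring
  unfold tD
  rw [qf_append, qf_append, ← h1.1, ← h1.2, ← h2.1, ← h2.2, h3]
  constructor
  · rw [Complex.add_re]; ring
  · rw [Complex.add_im]; ring

lemma zero_of_parts {z : ℂ} (h1 : (2 : ℝ) ^ 56 * z.re = 0) (h2 : (2 : ℝ) ^ 56 * z.im = 0) :
    z = 0 := by
  have h3 : (2 : ℝ) ^ 56 ≠ 0 := by positivity
  apply Complex.ext
  · simpa [h3] using h1
  · simpa [h3] using h2

theorem hasPICode_59_4 : HasPICode 59 4 := by
  obtain ⟨y, hyfix, hy⟩ := exists_solution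
  have hT : ∀ k : Fin 36, qf (genTL.getD k.1 []) y = 0 := by
    intro k
    rw [← genTL_eq]
    exact hy k
  have hX : ∀ p q, qf (tX false p q) y = 0 → qf (tX true p q) y = 0 → XX (amp y) p q = 0 := by
    intro p q e1 e2
    apply zero_of_parts
    · rw [(XX_parts y p q).1, e1]
    · rw [(XX_parts y p q).2, e2]
  have hD : ∀ p q, p ≤ 8 → q ≤ 8 → qf (tD false p q) y = 0 → qf (tD true p q) y = 0 →
      DD (amp y) p q = 0 := by
    intro p q hp hq e1 e2
    apply zero_of_parts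
    · rw [(DD_parts y p q hp hq).1, e1]
    · rw [(DD_parts y p q hp hq).2, e2]
  have hDd : ∀ p, p ≤ 8 → qf (tD false p p) y = 0 → DD (amp y) p p = 0 := by
    intro p hp e1
    apply zero_of_parts
    · rw [(DD_parts y p p hp hp).1, e1]
    · have h1 : DD (amp y) p p = star (DD (amp y) p p) := DD_conj (amp y) p p
      have h2 := congrArg Complex.im h1
      simp at h2
      have h3 : (DD (amp y) p p).im = 0 := by linarith
      rw [h3, mul_zero]
  have hgood : Good (amp y) := by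
    refine ⟨hDd 0 (by norm_num) (hT 0), hDd 1 (by norm_num) (hT 1), hDd 2 (by norm_num) (hT 2),
      hDd 3 (by norm_num) (hT 3),
      hD 0 3 (by norm_num) (by norm_num) (hT 4) (hT 5),
      hD 1 4 (by norm_num) (by norm_num) (hT 6) (hT 7),
      hD 2 5 (by norm_num) (by norm_num) (hT 8) (hT 9),
      hD 0 6 (by norm_num) (by norm_num) (hT 10) (hT 11),
      hX 0 2 (hT 12) (hT 13), hX 1 3 (hT 14) (hT 15), hX 2 4 (hT 16) (hT 17),
      hX 0 5 (hT 18) (hT 19), hX 1 6 (hT 20) (hT 21), hX 1 0 (hT 22) (hT 23),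
      hX 2 1 (hT 24) (hT 25), hX 3 2 (hT 26) (hT 27), hX 4 3 (hT 28) (hT 29),
      hX 4 0 (hT 30) (hT 31), hX 5 1 (hT 32) (hT 33), hX 7 0 (hT 34) (hT 35)⟩
  apply hasPICode_59_4_of (amp y) _ hgood
  · -- nonzero
    refine ⟨6, by norm_num, ?_⟩
    intro h0
    have h1 := congrArg Complex.re h0
    unfold amp at h1
    rw [if_pos (by norm_num)] at h1
    simp only [Complex.zero_re] at h1
    have h2 : Ri (6 / 3) = 36 := by decide
    rw [h2, hyfix 36 le_rfl] at h1
    have h3 : (xsF 36 : ℝ) ≠ 0 := by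
      have : xsF 36 ≠ 0 := by decide +kernel
      exact_mod_cast this
    have h4 : (2 : ℝ) ^ ee (6 / 3) ≠ 0 := by positivity
    rcases div_eq_zero_iff.mp h1 with h | h
    · exact h3 h
    · exact h4 h
  · intro j hj
    unfold amp
    rw [if_neg]
    intro h
    apply hj
    omega

end Pool.Agent.Helper90.PI
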