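import Pool.Agent.Helper90.PI.Defs

/-!
A sufficient condition for a permutation-invariant code to correct `t` errors.
-/

set_option autoImplicit false

open Matrix

namespace Pool.Agent.Helper90.PI

lemma wt_le {n : ℕ} (x : Fin n → Fin 2) : wt x ≤ n := by
  unfold wt
  refine le_trans (Finset.card_filter_le _ _) ?_
  simp

lemma dickeVec_apply {n : ℕ} (a : ℕ → ℂ) (x : Fin n → Fin 2) :
    dickeVec (n := n) (fun j => a j * ((Real.sqrt (n.choose j) : ℝ) : ℂ)) x = a (wt x) := by
  unfold dickeVec
  rw [Finset.sum_apply]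
  have hx : wt x < n + 1 := Nat.lt_succ_of_le (wt_le x)
  rw [Finset.sum_eq_single ⟨wt x, hx⟩]
  · simp only [Pi.smul_apply, smul_eq_mul, dicke, if_true]
    have hpos : (0 : ℝ) < Real.sqrt (n.choose (wt x)) := by
      apply Real.sqrt_pos.mpr
      exact_mod_cast Nat.choose_pos (wt_le x)
    have hne : ((Real.sqrt (n.choose (wt x)) : ℝ) : ℂ) ≠ 0 := by
      exact_mod_cast hpos.ne'
    push_cast
    field_simp
  · intro j _ hj
    simp only [Pi.smul_apply, smul_eq_mul, dicke]
    rw [if_neg, mul_zero]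
    intro h
    apply hj
    ext
    exact h.symm
  · intro h; exact absurd (Finset.mem_univ _) h

lemma pauli_zero : pauli 0 = 1 := by
  ext i j
  fin_cases i <;> fin_cases j <;> simp [pauli]

lemma dot_eq {n : ℕ} (u v : (Fin n → Fin 2) → ℂ)
    (M : Matrix (Fin n → Fin 2) (Fin n → Fin 2) ℂ) :
    star u ⬝ᵥ (M *ᵥ v) = ∑ x, ∑ y, M x y * (star (u x) * v y) := by
  unfold dotProduct Matrix.mulVec dotProduct
  apply Finset.sum_congr rfl
  intro x _
  rw [Finset.mul_sum]
  apply Finset.sum_congr rfl
  intro y _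
  simp only [Pi.star_apply]
  ring

theorem hasPICode_of {n t : ℕ} (h2t : 2 * t ≤ n) (a b : ℕ → ℂ)
    (hoff : ∀ p q, p ≤ 2 * t → q ≤ 2 * t →
      ∑ k ∈ Finset.range (n - 2 * t + 1), ((n - 2 * t).choose k : ℂ) *
        (star (a (p + k)) * b (q + k)) = 0)
    (hdiag : ∀ p q, p ≤ 2 * t → q ≤ 2 * t →
      ∑ k ∈ Finset.range (n - 2 * t + 1), ((n - 2 * t).choose k : ℂ) *
        (star (a (p + k)) * a (q + k) - star (b (p + k)) * b (q + k)) = 0)
    (hne : ∃ j, j ≤ n ∧ a j ≠ 0) : HasPICode n t := by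
  -- squared norm
  set R : ℝ := ∑ x : Fin n → Fin 2, ‖a (wt x)‖ ^ 2 with hR
  have hRpos : 0 < R := by
    obtain ⟨j, hj, haj⟩ := hne
    apply Finset.sum_pos'
    · intro x _; positivity
    · -- a string of weight j
      obtain ⟨S, -, hS⟩ := Finset.exists_subset_card_eq
        (s := (Finset.univ : Finset (Fin n))) (n := j) (by simpa using hj)
      refine ⟨fun i => if i ∈ S then 1 else 0, Finset.mem_univ _, ?_⟩
      have : wt (fun i : Fin n => if i ∈ S then (1 : Fin 2) else 0) = j := by
        unfold wt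
        rw [← hS]
        congr 1
        ext i
        simp
      rw [this]
      have := norm_pos_iff.mpr haj
      positivity
  set r : ℝ := (Real.sqrt R)⁻¹ with hr
  have hr2 : r ^ 2 * R = 1 := by
    rw [hr, inv_pow, Real.sq_sqrt hRpos.le]
    field_simp
  set a' : ℕ → ℂ := fun j => (r : ℂ) * a j with ha'
  set b' : ℕ → ℂ := fun j => (r : ℂ) * b j with hb'
  refine ⟨fun j => a' j * ((Real.sqrt (n.choose j) : ℝ) : ℂ),
    fun j => b' j * ((Real.sqrt (n.choose j) : ℝ) : ℂ), ?_⟩
  have hc0 : ∀ x, (![dickeVec (n := n) fun j => a' j * ((Real.sqrt (n.choose j) : ℝ) : ℂ),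
      dickeVec fun j => b' j * ((Real.sqrt (n.choose j) : ℝ) : ℂ)] : Fin 2 → _) 0 x
        = a' (wt x) := fun x => dickeVec_apply a' x
  have hc1 : ∀ x, (![dickeVec (n := n) fun j => a' j * ((Real.sqrt (n.choose j) : ℝ) : ℂ),
      dickeVec fun j => b' j * ((Real.sqrt (n.choose j) : ℝ) : ℂ)] : Fin 2 → _) 1 x
        = b' (wt x) := fun x => dickeVec_apply b' x
  set c : Fin 2 → (Fin n → Fin 2) → ℂ :=
    ![dickeVec (n := n) fun j => a' j * ((Real.sqrt (n.choose j) : ℝ) : ℂ),
      dickeVec fun j => b' j * ((Real.sqrt (n.choose j) : ℝ) : ℂ)] with hc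
  -- general operators
  have main : ∀ (m : Fin n → Matrix (Fin 2) (Fin 2) ℂ) (U : Finset (Fin n)),
      U.card ≤ 2 * t → (∀ i, i ∉ U → m i = 1) →
      ∀ i k : Fin 2, star (c i) ⬝ᵥ (tensorOp m *ᵥ c k) =
        if i = k then star (c 0) ⬝ᵥ (tensorOp m *ᵥ c 0) else 0 := by
    intro m U hU hm i k
    have h01 : star (c 0) ⬝ᵥ (tensorOp m *ᵥ c 1) = 0 := by
      rw [dot_eq]
      simp_rw [hc0, hc1]
      apply sum_tensorOp h2t m U hU hm (fun p q => star (a' p) * b' q)
      intro p q hp hq
      have h := hoff p q hp hq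
      have h2 : ∀ k, ((n - 2 * t).choose k : ℂ) * (star (a' (p + k)) * b' (q + k)) =
          (star (r : ℂ) * (r : ℂ)) * (((n - 2 * t).choose k : ℂ) *
            (star (a (p + k)) * b (q + k))) := by
        intro k; simp only [ha', hb', star_mul']; ring
      simp_rw [h2]
      rw [← Finset.mul_sum, h, mul_zero]
    have h10 : star (c 1) ⬝ᵥ (tensorOp m *ᵥ c 0) = 0 := by
      rw [dot_eq]
      simp_rw [hc0, hc1]
      apply sum_tensorOp h2t m U hU hm (fun p q => star (b' p) * a' q)
      intro p q hp hq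
      have h := congrArg star (hoff q p hq hp)
      rw [star_sum, star_zero] at h
      have h2 : ∀ k, ((n - 2 * t).choose k : ℂ) * (star (b' (p + k)) * a' (q + k)) =
          (star (r : ℂ) * (r : ℂ)) * star (((n - 2 * t).choose k : ℂ) *
            (star (a (q + k)) * b (p + k))) := by
        intro k
        simp only [ha', hb', star_mul', star_star, star_natCast]
        ring
      simp_rw [h2]
      rw [← Finset.mul_sum, h, mul_zero]
    have h11 : star (c 1) ⬝ᵥ (tensorOp m *ᵥ c 1) = star (c 0) ⬝ᵥ (tensorOp m *ᵥ c 0) := by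
      symm
      rw [← sub_eq_zero, dot_eq, dot_eq]
      simp_rw [hc0, hc1]
      rw [← Finset.sum_sub_distrib]
      simp_rw [← Finset.sum_sub_distrib, ← mul_sub]
      apply sum_tensorOp h2t m U hU hm (fun p q => star (a' p) * a' q - star (b' p) * b' q)
      intro p q hp hq
      have h := hdiag p q hp hq
      have h2 : ∀ k, ((n - 2 * t).choose k : ℂ) *
          (star (a' (p + k)) * a' (q + k) - star (b' (p + k)) * b' (q + k)) =
          (star (r : ℂ) * (r : ℂ)) * (((n - 2 * t).choose k : ℂ) *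
            (star (a (p + k)) * a (q + k) - star (b (p + k)) * b (q + k))) := by
        intro k; simp only [ha', hb', star_mul']; ring
      simp_rw [h2]
      rw [← Finset.mul_sum, h, mul_zero]
    fin_cases i <;> fin_cases k
    · simp
    · simpa using h01
    · simpa using h10
    · simpa using h11
  constructor
  · intro i k
    have h1 := main (fun _ => 1) ∅ (by simp) (fun _ _ => rfl) i k
    have h2 : tensorOp (fun _ : Fin n => (1 : Matrix (Fin 2) (Fin 2) ℂ)) = 1 := by
      ext x y
      unfold tensorOp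
      simp only [Matrix.one_apply]
      rw [Finset.prod_ite_zero]
      simp [funext_iff]
    rw [h2, Matrix.one_mulVec, Matrix.one_mulVec] at h1
    have h3 : star (c 0) ⬝ᵥ c 0 = 1 := by
      have h4 : star (c 0) ⬝ᵥ c 0 = ((r ^ 2 * R : ℝ) : ℂ) := by
        unfold dotProduct
        rw [hR, Finset.mul_sum]
        push_cast
        apply Finset.sum_congr rfl
        intro x _
        rw [Pi.star_apply, hc0]
        simp only [ha', star_mul', Complex.star_def, Complex.conj_ofReal]
        have : (starRingEnd ℂ) (a (wt x)) * a (wt x) = ((‖a (wt x)‖ : ℝ) : ℂ) ^ 2 := by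
          rw [Complex.conj_mul']
        calc (r : ℂ) * (starRingEnd ℂ) (a (wt x)) * ((r : ℂ) * a (wt x)) =
            (r : ℂ) ^ 2 * ((starRingEnd ℂ) (a (wt x)) * a (wt x)) := by ring
          _ = _ := by rw [this]
      rw [h4, hr2]; simp
    rw [h3] at h1
    exact h1
  · intro E F hE hF
    refine ⟨star (c 0) ⬝ᵥ (((pauliOp E)ᴴ * pauliOp F) *ᵥ c 0), ?_⟩
    intro i k
    have hop : (pauliOp E)ᴴ * pauliOp F = tensorOp fun i => (pauli (E i))ᴴ * pauli (F i) := by
      unfold pauliOp
      rw [tensorOp_conjTranspose, tensorOp_mul]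
    rw [hop]
    apply main _ ((Finset.univ.filter fun i => E i ≠ 0) ∪ (Finset.univ.filter fun i => F i ≠ 0))
    · refine le_trans (Finset.card_union_le _ _) ?_
      unfold pauliWeight at hE hF
      omega
    · intro i hi
      simp only [Finset.mem_union, Finset.mem_filter, Finset.mem_univ, true_and, not_or,
        not_not] at hi
      rw [hi.1, hi.2, pauli_zero]
      simp

end Pool.Agent.Helper90.PI
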