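import Mathlib

/-!
A Krawczyk-type existence theorem for square systems of homogeneous quadratic equations with
integer coefficients.
-/

set_option autoImplicit false

open Matrix

namespace Pool.Agent.Helper90.PI

/-- a quadratic form, as a list of terms `(i, j, c)` standing for `c * x i * x j` -/
abbrev Tm := List (ℕ × ℕ × ℤ)

/-- value of a quadratic form over the reals -/
noncomputable def qf (T : Tm) (x : ℕ → ℝ) : ℝ :=
  (T.map fun t => (t.2.2 : ℝ) * (x t.1 * x t.2.1)).sum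

/-- value over the integers -/
def qfZ (T : Tm) (x : ℕ → ℤ) : ℤ := (T.map fun t => t.2.2 * (x t.1 * x t.2.1)).sum

/-- sum of absolute values of the coefficients -/
def nrm (T : Tm) : ℤ := (T.map fun t => |t.2.2|).sum

/-- entry of the derivative at an integer point -/
def jent (T : Tm) (x : ℕ → ℤ) (l : ℕ) : ℤ :=
  (T.map fun t => t.2.2 * ((if t.2.1 = l then x t.1 else 0) + (if t.1 = l then x t.2.1 else 0))).sum

/-- bilinear form -/
noncomputable def bf (T : Tm) (x h : ℕ → ℝ) : ℝ :=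
  (T.map fun t => (t.2.2 : ℝ) * (x t.1 * h t.2.1 + h t.1 * x t.2.1)).sum

lemma nrm_nonneg (T : Tm) : 0 ≤ nrm T := by
  induction T with
  | nil => simp [nrm]
  | cons t T ih => simp only [nrm, List.map_cons, List.sum_cons] at *; positivity

lemma qf_cast (T : Tm) (x : ℕ → ℤ) : qf T (fun i => (x i : ℝ)) = (qfZ T x : ℝ) := by
  induction T with
  | nil => simp [qf, qfZ]
  | cons t T ih =>
    simp only [qf, qfZ, List.map_cons, List.sum_cons, Int.cast_add, Int.cast_mul] at *
    rw [ih]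

lemma qf_add (T : Tm) (x h : ℕ → ℝ) : qf T (fun i => x i + h i) = qf T x + bf T x h + qf T h := by
  induction T with
  | nil => simp [qf, bf]
  | cons t T ih =>
    simp only [qf, bf, List.map_cons, List.sum_cons] at *
    rw [ih]; ring

lemma qf_sub_bound (T : Tm) (h h' : ℕ → ℝ) (r d : ℝ) (hh : ∀ i, |h i| ≤ r) (hh' : ∀ i, |h' i| ≤ r)
    (hd : ∀ i, |h i - h' i| ≤ d) : |qf T h - qf T h'| ≤ (nrm T : ℝ) * (2 * r * d) := by
  induction T with
  | nil => simp [qf, nrm]
  | cons t T ih =>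
    simp only [qf, nrm, List.map_cons, List.sum_cons] at *
    have h1 : |(t.2.2 : ℝ) * (h t.1 * h t.2.1) - (t.2.2 : ℝ) * (h' t.1 * h' t.2.1)| ≤
        |(t.2.2 : ℝ)| * (2 * r * d) := by
      rw [← mul_sub, abs_mul]
      apply mul_le_mul_of_nonneg_left _ (abs_nonneg _)
      have e : h t.1 * h t.2.1 - h' t.1 * h' t.2.1 =
          (h t.1 - h' t.1) * h t.2.1 + h' t.1 * (h t.2.1 - h' t.2.1) := by ring
      rw [e]
      refine le_trans (abs_add_le _ _) ?_
      rw [abs_mul, abs_mul]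
      have hr : 0 ≤ r := le_trans (abs_nonneg _) (hh 0)
      have hd0 : 0 ≤ d := le_trans (abs_nonneg _) (hd 0)
      have a1 : |h t.1 - h' t.1| * |h t.2.1| ≤ d * r :=
        mul_le_mul (hd _) (hh _) (abs_nonneg _) hd0
      have a2 : |h' t.1| * |h t.2.1 - h' t.2.1| ≤ r * d :=
        mul_le_mul (hh' _) (hd _) (abs_nonneg _) hr
      linarith
    push_cast
    calc |(t.2.2 : ℝ) * (h t.1 * h t.2.1) + (T.map fun t => (t.2.2 : ℝ) * (h t.1 * h t.2.1)).sum -
          ((t.2.2 : ℝ) * (h' t.1 * h' t.2.1) +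
            (T.map fun t => (t.2.2 : ℝ) * (h' t.1 * h' t.2.1)).sum)|
        = |((t.2.2 : ℝ) * (h t.1 * h t.2.1) - (t.2.2 : ℝ) * (h' t.1 * h' t.2.1)) +
            ((T.map fun t => (t.2.2 : ℝ) * (h t.1 * h t.2.1)).sum -
            (T.map fun t => (t.2.2 : ℝ) * (h' t.1 * h' t.2.1)).sum)| := by congr 1; ring
      _ ≤ _ := abs_add_le _ _
      _ ≤ |(t.2.2 : ℝ)| * (2 * r * d) +
            (((T.map fun t => |t.2.2|).sum : ℤ) : ℝ) * (2 * r * d) := add_le_add h1 (by simpa using ih)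
      _ = _ := by push_cast; ring

lemma qf_bound (T : Tm) (h : ℕ → ℝ) (r : ℝ) (hh : ∀ i, |h i| ≤ r) :
    |qf T h| ≤ (nrm T : ℝ) * (r * r) := by
  induction T with
  | nil => simp [qf, nrm]
  | cons t T ih =>
    simp only [qf, nrm, List.map_cons, List.sum_cons] at *
    have h1 : |(t.2.2 : ℝ) * (h t.1 * h t.2.1)| ≤ |(t.2.2 : ℝ)| * (r * r) := by
      rw [abs_mul, abs_mul]
      apply mul_le_mul_of_nonneg_left _ (abs_nonneg _)
      have hr : 0 ≤ r := le_trans (abs_nonneg _) (hh 0)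
      exact mul_le_mul (hh _) (hh _) (abs_nonneg _) hr
    push_cast
    refine le_trans (abs_add_le _ _) ?_
    refine le_trans (add_le_add h1 ih) (le_of_eq ?_)
    push_cast; ring

section

variable {N : ℕ}

/-- extension by zero -/
noncomputable def ext (h : Fin N → ℝ) : ℕ → ℝ := fun i => if hi : i < N then h ⟨i, hi⟩ else 0

lemma ext_abs (h : Fin N → ℝ) (r : ℝ) (hr : 0 ≤ r) (hh : ∀ i, |h i| ≤ r) (i : ℕ) :
    |ext h i| ≤ r := by
  unfold ext
  split
  · exact hh _
  · simpa using hr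

lemma ext_sub (h h' : Fin N → ℝ) (i : ℕ) : ext h i - ext h' i = ext (fun j => h j - h' j) i := by
  unfold ext
  split <;> simp

lemma ext_eq_sum (h : Fin N → ℝ) (j : ℕ) (c : ℝ) :
    c * ext h j = ∑ l : Fin N, (if j = l.1 then c else 0) * h l := by
  unfold ext
  split
  · rename_i hj
    rw [Finset.sum_eq_single ⟨j, hj⟩]
    · simp
    · intro l _ hl
      rw [if_neg, zero_mul]
      intro h1; apply hl; ext; exact h1.symm
    · intro h1; exact absurd (Finset.mem_univ _) h1
  · rename_i hj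
    rw [mul_zero]
    symm
    apply Finset.sum_eq_zero
    intro l _
    rw [if_neg, zero_mul]
    intro h1; apply hj; rw [h1]; exact l.2

lemma bf_ext (T : Tm) (x : ℕ → ℤ) (h : Fin N → ℝ) :
    bf T (fun i => (x i : ℝ)) (ext h) = ∑ l : Fin N, (jent T x l.1 : ℝ) * h l := by
  induction T with
  | nil => simp [bf, jent]
  | cons t T ih =>
    simp only [bf, jent, List.map_cons, List.sum_cons] at *
    rw [ih]
    push_cast
    simp_rw [add_mul]
    rw [Finset.sum_add_distrib]
    congr 1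
    have h1 := ext_eq_sum h t.2.1 ((t.2.2 : ℝ) * (x t.1 : ℝ))
    have h2 := ext_eq_sum h t.1 ((t.2.2 : ℝ) * (x t.2.1 : ℝ))
    calc (t.2.2 : ℝ) * ((x t.1 : ℝ) * ext h t.2.1 + ext h t.1 * (x t.2.1 : ℝ))
        = (t.2.2 : ℝ) * (x t.1 : ℝ) * ext h t.2.1 + (t.2.2 : ℝ) * (x t.2.1 : ℝ) * ext h t.1 := by ring
      _ = _ := by
        rw [h1, h2, ← Finset.sum_add_distrib]
        apply Finset.sum_congr rfl
        intro l _
        split_ifs <;> ring

theorem krawczyk (T : Fin N → Tm) (xs : ℕ → ℤ) (A J : Fin N → Fin N → ℤ) (D r : ℤ)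
    (hD : 0 < D) (hr : 0 < r)
    (hJ : ∀ k l, J k l = jent (T k) xs l.1)
    (h1 : ∀ i, 4 * ∑ l, |(if i = l then D else 0) - ∑ k, A i k * J k l| ≤ D)
    (h2 : ∀ i, 8 * r * ∑ k, |A i k| * nrm (T k) ≤ D)
    (h3 : ∀ i, 2 * |∑ k, A i k * qfZ (T k) xs| ≤ r * D) :
    ∃ y : ℕ → ℝ, (∀ i, N ≤ i → y i = xs i) ∧ ∀ k, qf (T k) y = 0 := by
  have hDr : (0 : ℝ) < D := by exact_mod_cast hD
  have hrr : (0 : ℝ) < r := by exact_mod_cast hr
  set x0 : ℕ → ℝ := fun i => (xs i : ℝ) with hx0
  -- the Newton map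
  set G : (Fin N → ℝ) → (Fin N → ℝ) := fun h i =>
    h i - (∑ k, (A i k : ℝ) * qf (T k) (fun j => x0 j + ext h j)) / D with hG
  have hGexp : ∀ h i, G h i = -(∑ k, (A i k : ℝ) * (qfZ (T k) xs : ℝ)) / D
      + (∑ l, ((if i = l then (D : ℝ) else 0) - ∑ k, (A i k : ℝ) * (J k l : ℝ)) * h l) / D
      - (∑ k, (A i k : ℝ) * qf (T k) (ext h)) / D := by
    intro h i
    simp only [hG]
    have e1 : ∀ k, (A i k : ℝ) * qf (T k) (fun j => x0 j + ext h j) =
        (A i k : ℝ) * (qfZ (T k) xs : ℝ) + (A i k : ℝ) * (∑ l, (J k l : ℝ) * h l) +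
          (A i k : ℝ) * qf (T k) (ext h) := by
      intro k
      rw [qf_add, hx0, qf_cast, bf_ext]
      simp_rw [hJ]
      ring
    simp_rw [e1]
    rw [Finset.sum_add_distrib, Finset.sum_add_distrib]
    have e2 : ∑ l, ((if i = l then (D : ℝ) else 0) - ∑ k, (A i k : ℝ) * (J k l : ℝ)) * h l =
        D * h i - ∑ k, (A i k : ℝ) * (∑ l, (J k l : ℝ) * h l) := by
      simp_rw [sub_mul]
      rw [Finset.sum_sub_distrib]
      congr 1
      · simp
      · simp_rw [Finset.sum_mul, Finset.mul_sum]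
        rw [Finset.sum_comm]
        apply Finset.sum_congr rfl
        intro k _
        apply Finset.sum_congr rfl
        intro l _
        ring
    rw [e2]
    field_simp
    ring
  have h1r : ∀ i, ∑ l, |(if i = l then (D : ℝ) else 0) - ∑ k, (A i k : ℝ) * (J k l : ℝ)| ≤ D / 4 := by
    intro i
    have := h1 i
    have h' : (4 : ℝ) * ∑ l, |(if i = l then (D : ℝ) else 0) - ∑ k, (A i k : ℝ) * (J k l : ℝ)| ≤ D := by
      exact_mod_cast this
    linarith
  have h2r : ∀ i, ∑ k, |(A i k : ℝ)| * (nrm (T k) : ℝ) ≤ D / (8 * r) := by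
    intro i
    have := h2 i
    have h' : (8 : ℝ) * r * ∑ k, |(A i k : ℝ)| * (nrm (T k) : ℝ) ≤ D := by exact_mod_cast this
    rw [le_div_iff₀ (by positivity)]
    linarith
  have h3r : ∀ i, |∑ k, (A i k : ℝ) * (qfZ (T k) xs : ℝ)| ≤ r * D / 2 := by
    intro i
    have := h3 i
    have h' : (2 : ℝ) * |∑ k, (A i k : ℝ) * (qfZ (T k) xs : ℝ)| ≤ r * D := by exact_mod_cast this
    linarith
  have hlin : ∀ (h : Fin N → ℝ) (d : ℝ), (∀ l, |h l| ≤ d) → ∀ i,
      |(∑ l, ((if i = l then (D : ℝ) else 0) - ∑ k, (A i k : ℝ) * (J k l : ℝ)) * h l) / D| ≤ d / 4 := by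
    intro h d hd i
    have hd0 : 0 ≤ d := le_trans (abs_nonneg _) (hd i)
    rw [abs_div, abs_of_pos hDr, div_le_iff₀ hDr]
    calc |∑ l, ((if i = l then (D : ℝ) else 0) - ∑ k, (A i k : ℝ) * (J k l : ℝ)) * h l|
        ≤ ∑ l, |((if i = l then (D : ℝ) else 0) - ∑ k, (A i k : ℝ) * (J k l : ℝ)) * h l| :=
          Finset.abs_sum_le_sum_abs _ _
      _ ≤ ∑ l, |(if i = l then (D : ℝ) else 0) - ∑ k, (A i k : ℝ) * (J k l : ℝ)| * d := by
          apply Finset.sum_le_sum
          intro l _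
          rw [abs_mul]
          exact mul_le_mul_of_nonneg_left (hd l) (abs_nonneg _)
      _ = (∑ l, |(if i = l then (D : ℝ) else 0) - ∑ k, (A i k : ℝ) * (J k l : ℝ)|) * d := by
          rw [Finset.sum_mul]
      _ ≤ (D / 4) * d := mul_le_mul_of_nonneg_right (h1r i) hd0
      _ = d / 4 * D := by ring
  -- the ball
  set s : Set (Fin N → ℝ) := {h | ∀ i, |h i| ≤ r} with hs
  have hmaps : Set.MapsTo G s s := by
    intro h hh i
    rw [hGexp]
    have b1 : |-(∑ k, (A i k : ℝ) * (qfZ (T k) xs : ℝ)) / D| ≤ r / 2 := by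
      rw [abs_div, abs_neg, abs_of_pos hDr, div_le_iff₀ hDr]
      calc |∑ k, (A i k : ℝ) * (qfZ (T k) xs : ℝ)| ≤ (r : ℝ) * D / 2 := h3r i
        _ = (r : ℝ) / 2 * D := by ring
    have b2 := hlin h r hh i
    have b3 : |(∑ k, (A i k : ℝ) * qf (T k) (ext h)) / D| ≤ r / 8 := by
      rw [abs_div, abs_of_pos hDr, div_le_iff₀ hDr]
      calc |∑ k, (A i k : ℝ) * qf (T k) (ext h)| ≤ ∑ k, |(A i k : ℝ) * qf (T k) (ext h)| :=
            Finset.abs_sum_le_sum_abs _ _
        _ ≤ ∑ k, |(A i k : ℝ)| * (nrm (T k) : ℝ) * (r * r) := by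
            apply Finset.sum_le_sum
            intro k _
            rw [abs_mul, mul_assoc]
            apply mul_le_mul_of_nonneg_left _ (abs_nonneg _)
            exact qf_bound _ _ _ (ext_abs h r hrr.le hh)
        _ = (∑ k, |(A i k : ℝ)| * (nrm (T k) : ℝ)) * (r * r) := by rw [Finset.sum_mul]
        _ ≤ D / (8 * r) * (r * r) := mul_le_mul_of_nonneg_right (h2r i) (by positivity)
        _ = r / 8 * D := by field_simp
    calc |-(∑ k, (A i k : ℝ) * (qfZ (T k) xs : ℝ)) / D
          + (∑ l, ((if i = l then (D : ℝ) else 0) - ∑ k, (A i k : ℝ) * (J k l : ℝ)) * h l) / D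
          - (∑ k, (A i k : ℝ) * qf (T k) (ext h)) / D|
        ≤ |-(∑ k, (A i k : ℝ) * (qfZ (T k) xs : ℝ)) / D
          + (∑ l, ((if i = l then (D : ℝ) else 0) - ∑ k, (A i k : ℝ) * (J k l : ℝ)) * h l) / D|
          + |(∑ k, (A i k : ℝ) * qf (T k) (ext h)) / D| := abs_sub _ _
      _ ≤ (|-(∑ k, (A i k : ℝ) * (qfZ (T k) xs : ℝ)) / D|
          + |(∑ l, ((if i = l then (D : ℝ) else 0) - ∑ k, (A i k : ℝ) * (J k l : ℝ)) * h l) / D|)
          + |(∑ k, (A i k : ℝ) * qf (T k) (ext h)) / D| := by gcongr; exact abs_add_le _ _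
      _ ≤ r := by linarith
  have hlip : ∀ h ∈ s, ∀ h' ∈ s, dist (G h) (G h') ≤ (1 / 2 : ℝ) * dist h h' := by
    intro h hh h' hh'
    rw [dist_pi_le_iff (by positivity)]
    intro i
    rw [Real.dist_eq, hGexp, hGexp]
    set d := dist h h' with hd
    have hdl : ∀ l, |h l - h' l| ≤ d := fun l => by
      rw [← Real.dist_eq]; exact dist_le_pi_dist h h' l
    have b2 := hlin (fun l => h l - h' l) d hdl i
    have e2 : (∑ l, ((if i = l then (D : ℝ) else 0) - ∑ k, (A i k : ℝ) * (J k l : ℝ)) *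
        (h l - h' l)) / D =
        (∑ l, ((if i = l then (D : ℝ) else 0) - ∑ k, (A i k : ℝ) * (J k l : ℝ)) * h l) / D -
        (∑ l, ((if i = l then (D : ℝ) else 0) - ∑ k, (A i k : ℝ) * (J k l : ℝ)) * h' l) / D := by
      rw [← sub_div, ← Finset.sum_sub_distrib]
      congr 1
      apply Finset.sum_congr rfl
      intro l _
      ring
    rw [e2] at b2
    have hd0 : 0 ≤ d := dist_nonneg
    have b3 : |(∑ k, (A i k : ℝ) * qf (T k) (ext h)) / D -
        (∑ k, (A i k : ℝ) * qf (T k) (ext h')) / D| ≤ d / 4 := by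
      rw [← sub_div, ← Finset.sum_sub_distrib, abs_div, abs_of_pos hDr, div_le_iff₀ hDr]
      calc |∑ k, ((A i k : ℝ) * qf (T k) (ext h) - (A i k : ℝ) * qf (T k) (ext h'))|
          ≤ ∑ k, |(A i k : ℝ) * qf (T k) (ext h) - (A i k : ℝ) * qf (T k) (ext h')| :=
            Finset.abs_sum_le_sum_abs _ _
        _ ≤ ∑ k, |(A i k : ℝ)| * (nrm (T k) : ℝ) * (2 * r * d) := by
            apply Finset.sum_le_sum
            intro k _
            rw [← mul_sub, abs_mul, mul_assoc]
            apply mul_le_mul_of_nonneg_left _ (abs_nonneg _)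
            apply qf_sub_bound _ _ _ _ _ (ext_abs h r hrr.le hh) (ext_abs h' r hrr.le hh')
            intro j
            rw [ext_sub]
            exact ext_abs _ d hd0 hdl j
        _ = (∑ k, |(A i k : ℝ)| * (nrm (T k) : ℝ)) * (2 * r * d) := by rw [Finset.sum_mul]
        _ ≤ D / (8 * r) * (2 * r * d) := mul_le_mul_of_nonneg_right (h2r i) (by positivity)
        _ = d / 4 * D := by field_simp; ring
    calc _ = |((∑ l, ((if i = l then (D : ℝ) else 0) - ∑ k, (A i k : ℝ) * (J k l : ℝ)) * h l) / D -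
          (∑ l, ((if i = l then (D : ℝ) else 0) - ∑ k, (A i k : ℝ) * (J k l : ℝ)) * h' l) / D) -
          ((∑ k, (A i k : ℝ) * qf (T k) (ext h)) / D -
          (∑ k, (A i k : ℝ) * qf (T k) (ext h')) / D)| := by congr 1; ring
      _ ≤ _ := abs_sub _ _
      _ ≤ (1 / 2 : ℝ) * d := by linarith
  have hscomp : IsComplete s := by
    apply IsClosed.isComplete
    have hs' : s = ⋂ i : Fin N, {h : Fin N → ℝ | |h i| ≤ (r : ℝ)} := by ext h; simp [hs]
    rw [hs']
    apply isClosed_iInter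
    intro i
    apply isClosed_le <;> fun_prop
  have hcontr : ContractingWith (1 / 2 : NNReal) (hmaps.restrict G s s) := by
    constructor
    · rw [← NNReal.coe_lt_coe]; norm_num
    · apply LipschitzWith.of_dist_le_mul
      intro h h'
      have := hlip h.1 h.2 h'.1 h'.2
      rw [Subtype.dist_eq, Subtype.dist_eq]
      simpa using this
  have h0s : (0 : Fin N → ℝ) ∈ s := by intro i; simp [hrr.le]
  obtain ⟨h, hh, hfix, -, -⟩ := ContractingWith.exists_fixedPoint' hscomp hmaps hcontr h0s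
    (edist_ne_top _ _)
  refine ⟨fun j => x0 j + ext h j, ?_, ?_⟩
  · intro i hi
    simp [ext, hx0, not_lt.mpr hi]
  · set F : Fin N → ℝ := fun k => qf (T k) (fun j => x0 j + ext h j) with hF
    have hAF : ∀ i, ∑ k, (A i k : ℝ) * F k = 0 := by
      intro i
      have := congrFun hfix i
      simp only [hG] at this
      have h4 : (∑ k, (A i k : ℝ) * qf (T k) (fun j => x0 j + ext h j)) / D = 0 := by linarith
      rw [div_eq_zero_iff] at h4
      rcases h4 with h4 | h4
      · exact h4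
      · exact absurd h4 hDr.ne'
    set Ar : Matrix (Fin N) (Fin N) ℝ := Matrix.of fun i k => (A i k : ℝ) with hAr
    set Jr : Matrix (Fin N) (Fin N) ℝ := Matrix.of fun i k => (J i k : ℝ) with hJr
    have hinj : Function.Injective ((Ar * Jr).mulVec) := by
      rw [← Matrix.coe_mulVecLin, ← LinearMap.ker_eq_bot, LinearMap.ker_eq_bot']
      intro v hv
      rw [Matrix.mulVecLin_apply] at hv
      have hvle : ∀ i, |v i| ≤ ‖v‖ / 4 := by
        intro i
        have h5 := hlin v ‖v‖ (fun l => by rw [← Real.norm_eq_abs]; exact norm_le_pi_norm v l) i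
        have h6 : ∑ l, (∑ k, (A i k : ℝ) * (J k l : ℝ)) * v l = 0 := by
          have := congrFun hv i
          simpa [Matrix.mulVec, dotProduct, Matrix.mul_apply, hAr, hJr] using this
        have h7 : (∑ l, ((if i = l then (D : ℝ) else 0) - ∑ k, (A i k : ℝ) * (J k l : ℝ)) * v l) / D
            = v i := by
          simp_rw [sub_mul]
          rw [Finset.sum_sub_distrib, h6]
          simp
          field_simp
        rw [h7] at h5
        exact h5
      have hvn : ‖v‖ ≤ ‖v‖ / 4 := by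
        rw [pi_norm_le_iff_of_nonneg (by positivity)]
        intro i; rw [Real.norm_eq_abs]; exact hvle i
      have : ‖v‖ = 0 := by
        have := norm_nonneg v
        linarith
      exact norm_eq_zero.mp this
    have hunit : IsUnit (Ar * Jr) := Matrix.mulVec_injective_iff_isUnit.mp hinj
    have hunitA : IsUnit Ar := by
      rw [Matrix.isUnit_iff_isUnit_det] at hunit ⊢
      rw [Matrix.det_mul] at hunit
      exact isUnit_of_mul_isUnit_left hunit
    have hFz : F = 0 := by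
      apply Matrix.mulVec_injective_iff_isUnit.mpr hunitA
      rw [Matrix.mulVec_zero]
      funext i
      exact hAF i
    intro k
    exact congrFun hFz k

end

end Pool.Agent.Helper90.PI
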